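import Pool.Agent.Work.MP_e5cb06_gt.Main

set_option autoImplicit false

/-!
# A compact space `Y` with `Y ⊕ Y ≅ Y` for which `C_p(Y)` is not linearly homeomorphic to
`C_p(Y) × ℝ`
-/

namespace Pool.Agent.Results.MP_e5cb06_gt.SquareNotTimesLine

theorem Cp_add {X : Type} [TopologicalSpace X] {f g : X → ℝ} (hf : Continuous f)
    (hg : Continuous g) : Continuous (f + g) := hf.add hg

theorem Cp_zero {X : Type} [TopologicalSpace X] : Continuous (0 : X → ℝ) := continuous_const

theorem Cp_smul {X : Type} [TopologicalSpace X] (a : ℝ) {f : X → ℝ} (hf : Continuous f) :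
    Continuous (a • f) := hf.const_smul a

/-- `C_p(X)`: the real vector space of all continuous functions `X → ℝ`, a linear subspace of
`ℝ ^ X`, with the topology of pointwise convergence, i.e. the topology inherited from the product
`ℝ ^ X` (this is the topology which Lean gives to a subspace of `X → ℝ`). -/
def Cp (X : Type) [TopologicalSpace X] : Submodule ℝ (X → ℝ) where
  carrier := {f | Continuous f}
  add_mem' hf hg := Cp_add hf hg
  zero_mem' := Cp_zero
  smul_mem' a _ hf := Cp_smul a hf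

/-- `X` and `Z` are `l`-equivalent: `C_p(X)` and `C_p(Z)` are linearly homeomorphic. -/
def LEquivalent (X Z : Type) [TopologicalSpace X] [TopologicalSpace Z] : Prop :=
  Nonempty (Cp X ≃L[ℝ] Cp Z)

/-- `C_p(X)` is linearly homeomorphic to `C_p(X) × ℝ`. -/
def AbsorbsLine (X : Type) [TopologicalSpace X] : Prop :=
  Nonempty (Cp X ≃L[ℝ] (Cp X × ℝ))

/-- A homeomorphism induces a linear homeomorphism of the function spaces. -/
def congr {X Y : Type} [TopologicalSpace X] [TopologicalSpace Y] (q : X ≃ₜ Y) :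
    Cp X ≃L[ℝ] Cp Y where
  toFun f := ⟨fun y => f.1 (q.symm y), f.2.comp q.symm.continuous⟩
  invFun g := ⟨fun x => g.1 (q x), g.2.comp q.continuous⟩
  map_add' _ _ := rfl
  map_smul' _ _ := rfl
  left_inv f := by
    apply Subtype.ext
    funext x
    simp
  right_inv g := by
    apply Subtype.ext
    funext x
    simp
  continuous_toFun := by
    refine Continuous.subtype_mk (continuous_pi fun y => ?_) _
    exact (continuous_apply (q.symm y)).comp continuous_subtype_val
  continuous_invFun := by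
    refine Continuous.subtype_mk (continuous_pi fun x => ?_) _
    exact (continuous_apply (q x)).comp continuous_subtype_val

open Classical in
/-- A linear homeomorphism `C_p(Y) × ℝ → C_p(Y)` gives maps on all functions, as they occur in the
classification of the operators. -/
theorem no_equiv {B : Set (Set ℕ)} (hB : Pool.Agent.Work.MP_e5cb06_gt.Closed B)
    (E : (Cp (Pool.Agent.Work.MP_e5cb06_gt.K B) × ℝ) ≃L[ℝ] Cp (Pool.Agent.Work.MP_e5cb06_gt.K B)) :
    Nonempty (Pool.Agent.Work.MP_e5cb06_gt.Rows B) := by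
  set Y := Pool.Agent.Work.MP_e5cb06_gt.K B with hY
  let T : (Y → ℝ) × ℝ → (Y → ℝ) := fun p =>
    if h : Continuous p.1 then (E (⟨p.1, h⟩, p.2)).1 else 0
  let S : (Y → ℝ) → (Y → ℝ) × ℝ := fun g =>
    if h : Continuous g then ((E.symm ⟨g, h⟩).1.1, (E.symm ⟨g, h⟩).2) else 0
  have hT : ∀ (p : (Y → ℝ) × ℝ) (h : Continuous p.1), T p = (E (⟨p.1, h⟩, p.2)).1 :=
    fun p h => dif_pos h
  have hS : ∀ (g : Y → ℝ) (h : Continuous g),
      S g = ((E.symm ⟨g, h⟩).1.1, (E.symm ⟨g, h⟩).2) := fun g h => dif_pos h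
  refine Pool.Agent.Work.MP_e5cb06_gt.exists_rows hB (T := T) (S := S) ?_ ?_ ?_ ?_ ?_ ?_ ?_
  · intro p h
    rw [hT p h]
    exact (E (⟨p.1, h⟩, p.2)).2
  · intro g h
    rw [hS g h]
    exact (E.symm ⟨g, h⟩).1.2
  · intro p h
    rw [hT p h, hS _ (E (⟨p.1, h⟩, p.2)).2]
    have h1 : E.symm ⟨(E (⟨p.1, h⟩, p.2)).1, (E (⟨p.1, h⟩, p.2)).2⟩ = (⟨p.1, h⟩, p.2) :=
      E.symm_apply_apply _
    rw [h1]
  · intro g h
    rw [hS g h, hT ((E.symm ⟨g, h⟩).1.1, (E.symm ⟨g, h⟩).2) (E.symm ⟨g, h⟩).1.2]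
    have h1 : E (⟨(E.symm ⟨g, h⟩).1.1, (E.symm ⟨g, h⟩).1.2⟩, (E.symm ⟨g, h⟩).2) = ⟨g, h⟩ :=
      E.apply_symm_apply _
    exact congrArg Subtype.val h1
  · intro a p q hp hq
    have hpq : Continuous (a • p + q).1 := (hp.const_smul a).add hq
    rw [hT _ hpq, hT p hp, hT q hq]
    have h1 : ((⟨(a • p + q).1, hpq⟩, (a • p + q).2) : Cp Y × ℝ) =
        a • ((⟨p.1, hp⟩, p.2) : Cp Y × ℝ) + (⟨q.1, hq⟩, q.2) := rfl
    rw [h1, map_add, map_smul]
    rfl
  · rw [continuousOn_iff_continuous_domRestrict]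
    have h1 : (Set.domRestrict {p : (Y → ℝ) × ℝ | Continuous p.1} T) =
        fun p => (E (⟨p.1.1, p.2⟩, p.1.2)).1 := by
      funext p
      exact hT p.1 p.2
    rw [h1]
    refine continuous_subtype_val.comp (E.continuous.comp ?_)
    refine Continuous.prodMk ?_ (continuous_snd.comp continuous_subtype_val)
    exact Continuous.subtype_mk (continuous_fst.comp continuous_subtype_val) _
  · rw [continuousOn_iff_continuous_domRestrict]
    have h1 : (Set.domRestrict {g : Y → ℝ | Continuous g} S) =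
        fun g => ((E.symm ⟨g.1, g.2⟩).1.1, (E.symm ⟨g.1, g.2⟩).2) := by
      funext g
      exact hS g.1 g.2
    rw [h1]
    have h2 : Continuous fun g : {g : Y → ℝ | Continuous g} => E.symm ⟨g.1, g.2⟩ :=
      E.symm.continuous.comp (Continuous.subtype_mk continuous_subtype_val _)
    exact (continuous_subtype_val.comp (continuous_fst.comp h2)).prodMk (continuous_snd.comp h2)

/-- Not every nonempty compact Hausdorff totally disconnected (so zero-dimensional, in particular
Tychonoff) space `Y` for which `Y ⊕ Y` is homeomorphic to `Y` (so that `Y ⊕ Y` and `Y` are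
`l`-equivalent) has `C_p(Y)` linearly homeomorphic to `C_p(Y) × ℝ`. -/
theorem result :
    ¬ ∀ (Y : Type) [TopologicalSpace Y] [Nonempty Y] [CompactSpace Y] [T2Space Y]
        [TotallyDisconnectedSpace Y],
      Nonempty (Y ⊕ Y ≃ₜ Y) → LEquivalent (Y ⊕ Y) Y → AbsorbsLine Y := by
  intro H
  obtain ⟨B, hB, hflow, hB2⟩ := Pool.Agent.Work.MP_e5cb06_gt.exists_algebra
  have hFact : Fact (Pool.Agent.Work.MP_e5cb06_gt.Closed B) := ⟨hB⟩
  have i1 : Nonempty (Pool.Agent.Work.MP_e5cb06_gt.K B) :=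
    ⟨Pool.Agent.Work.MP_e5cb06_gt.pt B 0⟩
  have i2 : TotallyDisconnectedSpace (Pool.Agent.Work.MP_e5cb06_gt.K B) :=
    inferInstanceAs (TotallyDisconnectedSpace
      ↥(Set.range (Pool.Agent.Work.MP_e5cb06_gt.trf B)))
  obtain ⟨E⟩ := H (Pool.Agent.Work.MP_e5cb06_gt.K B)
    ⟨Pool.Agent.Work.MP_e5cb06_gt.sumHomeo (B := B)⟩
    ⟨congr (Pool.Agent.Work.MP_e5cb06_gt.sumHomeo (B := B))⟩
  obtain ⟨d⟩ := no_equiv hB E.symm
  exact Pool.Agent.Work.MP_e5cb06_gt.no_rows hflow hB2 d

end Pool.Agent.Results.MP_e5cb06_gt.SquareNotTimesLine
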